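import Pool.Agent.Lib.MP_86bf3a_co.Def
import Pool.Agent.Lib.MP_86bf3a_co.Final

/-!
# Every union of `n - 1` arc-disjoint spanning arborescences on `n` vertices contains a properly
coloured spanning arborescence
-/

namespace Pool.Agent.Results.MP_86bf3a_co.ProperArborescence

open ArborescenceColouring

/-- Let a finite loopless digraph (with vertex set `V`, `|V| = n ≥ 2`, arc set `E`, parallel arcs
allowed) be coloured with `n - 1` colours so that each colour class is a spanning arborescence (the
roots may differ). Then it contains a properly coloured spanning arborescence. -/
theorem result {V E : Type*} [Fintype V] [Fintype E] (src tgt : E → V)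
    (hloop : ∀ e, src e ≠ tgt e) (hn : 2 ≤ Fintype.card V)
    (col : E → Fin (Fintype.card V - 1))
    (hcol : ∀ i, IsSpanningArborescence src tgt (Finset.univ.filter (fun e => col e = i))) :
    ∃ F : Finset E, IsSpanningArborescence src tgt F ∧ ProperlyColoured src tgt col F :=
  main_digraph src tgt hloop hn col hcol

end Pool.Agent.Results.MP_86bf3a_co.ProperArborescence
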